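import Pool.Agent.ISO.StmtsD

/-!
# Squad ISO, block D, row DET
-/

set_option autoImplicit false

namespace Pool.Agent.ISO.H35

open MvPolynomial Pool.Agent.Helper32_OMP

/-- ROW DET -/
theorem det (h1 : DnlStmt) (h2 : DnwStmt) : DetStmt := by
  intro k _ _ σ ι _ _ f T p hT _
  obtain ⟨K, h, hK⟩ := h1 k σ ι f T p hT
  refine ⟨2 * K + 1, by omega, ?_⟩
  intro ψ g hψ hg E
  have key : ∀ n : ℕ, ∃ (ψ' : σ → MvPolynomial σ k) (u : ι → MvPolynomial σ k), Crd p ψ' ∧
      (∀ i, constantCoeff (u i) = 1) ∧ ∀ i, Eqm (2 * K + 1 + n) (u i * aeval ψ' (f i)) (g i) := by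
    intro n
    induction n with
    | zero =>
      refine ⟨ψ, fun _ => 1, hψ, fun _ => by simp, fun i => ?_⟩
      rw [one_mul]
      exact hg i
    | succ n ih =>
      obtain ⟨ψ', u, h3, h4, h5⟩ := ih
      obtain ⟨ψ'', u', h6, h7, h8⟩ := h2 k σ ι f g p K h hK ψ' u h3 h4 (K + 1 + n) (by omega)
        (fun i => by
          have h9 : K + (K + 1 + n) = 2 * K + 1 + n := by ring
          rw [h9]
          exact h5 i)
      refine ⟨ψ'', u', h6, h7, fun i => ?_⟩
      have h9 : 2 * K + 1 + (n + 1) = K + (K + 1 + n) + 1 := by ring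
      rw [h9]
      exact h8 i
  obtain ⟨ψ', u, h3, h4, h5⟩ := key E
  exact ⟨ψ', u, h3, h4, fun i b hb => h5 i b (by omega)⟩

end Pool.Agent.ISO.H35
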