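import Pool.Agent.ISO.StmtsR
import Pool.Agent.Helper66_OMP.Cop

/-!
# Squad ISO, block R, row RTM
-/

set_option autoImplicit false

namespace Pool.Agent.ISO.R.H35

open MvPolynomial Finset Pool.Agent.Helper6_Mono Pool.Agent.Helper32_OMP
  Pool.Agent.Helper32_OMP.H66 Pool.Agent.ISO

/-- ROW RTM -/
theorem rtm (h1 : RtqStmt) : RtmStmt := by
  classical
  intro σ ι _ _ hcard f a ha c hc hf T hT hsnc i j hj1 hji1
  have hfi : f i ≠ 0 := by
    intro h
    apply hf i 0
    rw [h, C_0]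
  have hnu : ¬ IsUnit (f i) := by
    intro h
    obtain ⟨r, _, hr⟩ := isUnit_iff_eq_C_of_isReduced.mp h
    exact hf i r hr
  obtain ⟨q, hq, w, hw⟩ := WfDvdMonoid.exists_irreducible_factor hnu hfi
  have hprime : Prime q := UniqueFactorizationMonoid.irreducible_iff_prime.mp hq
  have hqc : ∀ c' : ℂ, q ≠ C c' := by
    rcases isUnit_or q with h | h | h
    · exact absurd h hq.ne_zero
    · exact absurd h hq.not_isUnit
    · exact h
  obtain ⟨z, hz1, hz2⟩ := Pool.Agent.Helper32_OMP.H66.zero σ hcard q hqc T hT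
  have hqw : ¬ q ∣ w := by
    rintro ⟨w', rfl⟩
    have h3 : eval z (f i) = 0 := by rw [hw, map_mul, hz2, zero_mul]
    obtain ⟨l, hl⟩ := snc_ne (hsnc z hz1) h3
    apply hl
    rw [hw]
    simp only [Derivation.leibniz, smul_eq_mul, map_add, map_mul, hz2]
    ring
  apply h1 σ _ q (C c * w ^ a i * ∏ j ∈ univ.erase i, f j ^ a j) (a i) j hj1 hji1 hq
  · rw [← Finset.mul_prod_erase univ (fun j => f j ^ a j) (mem_univ i), hw, mul_pow]
    ring
  · intro h
    rcases hprime.dvd_or_dvd h with h | h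
    · rcases hprime.dvd_or_dvd h with h | h
      · exact hq.not_isUnit (isUnit_of_dvd_unit h ((isUnit_iff_ne_zero.mpr hc).map C))
      · exact hqw (hprime.dvd_of_dvd_pow h)
    · obtain ⟨j, hj, hj2⟩ := hprime.exists_mem_finset_dvd h
      have hji : j ≠ i := ne_of_mem_erase hj
      exact snc_dvd (hsnc z hz1) hji hz2 (hprime.dvd_of_dvd_pow hj2) ⟨w, hw⟩

end Pool.Agent.ISO.R.H35
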